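import Mathlib
import Pool.Agent.H33.Spl3

namespace Pool.Agent.Results.MP_e9bccb_gt.SplitCorson

/-- Corson compact: compact and homeomorphic to a subspace of a Sigma-product of real lines. -/
def IsCorson (Y : Type) [TopologicalSpace Y] : Prop :=
  CompactSpace Y ∧ ∃ (Γ : Type) (e : Y → (Γ → ℝ)), Topology.IsEmbedding e ∧
    ∀ y : Y, {γ : Γ | e y γ ≠ 0}.Countable

/-- Every compact Hausdorff space splittable over the Corson compacta is Corson compact. -/
theorem result (X : Type) [TopologicalSpace X] [CompactSpace X] [T2Space X]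
    (hX : ∀ A : Set X, ∃ (Y : Type) (_ : TopologicalSpace Y), IsCorson Y ∧
      ∃ f : X → Y, Continuous f ∧ f ⁻¹' (f '' A) = A) : IsCorson X := by
  obtain ⟨Γ, e, h1, h2, h3⟩ := Pool.Agent.H33.Spl3.corson (X := X) fun A => by
    obtain ⟨Y, t, ⟨-, Γ, e, he, h⟩, f, hf, hA⟩ := hX A
    exact ⟨Y, t, f, ⟨Γ, e, he.continuous, he.injective, h⟩, hf, hA⟩
  exact ⟨inferInstance, Γ, e, (h1.isClosedEmbedding h2).isEmbedding, h3⟩

end Pool.Agent.Results.MP_e9bccb_gt.SplitCorson
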